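import Pool.Agent.L0h38.TM.StmA

/-!
# Board TM (helper38), module ATM: totally bounded characters and atoms
-/

set_option autoImplicit false

open Filter Topology Finset MeasureTheory

namespace Pool.Agent.L0h38.TM

namespace Atm

/-- the character -/
noncomputable def uc (x : UnitAddCircle) : ℂ := fourier 1 x

lemma uc_cont : Continuous uc := (fourier 1).continuous

lemma fourier_nat (n : ℕ) (x : UnitAddCircle) : (fourier (n : ℤ) x : ℂ) = uc x ^ n := by
  unfold uc
  rw [fourier_apply, fourier_one, natCast_zsmul, AddCircle.toCircle_nsmul, Circle.coe_pow]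

lemma uc_norm (x : UnitAddCircle) : ‖uc x‖ = 1 := by
  unfold uc
  rw [fourier_one]
  exact Circle.norm_coe _

lemma uc_inj {x y : UnitAddCircle} (h : uc x = uc y) : x = y := by
  unfold uc at h
  rw [fourier_one, fourier_one] at h
  exact AddCircle.injective_toCircle one_ne_zero (Subtype.ext h)

lemma uc_mul (y : UnitAddCircle) : starRingEnd ℂ (uc y) * uc y = 1 := by
  rw [mul_comm, Complex.mul_conj, Complex.normSq_eq_norm_sq, uc_norm]
  norm_num

lemma geo_lim {g : ℂ} (hg : ‖g‖ = 1) (hg1 : g ≠ 1) :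
    Tendsto (fun N : ℕ => (1 / (N : ℂ)) * ∑ k ∈ range N, g ^ k) atTop (𝓝 0) := by
  have hpos : 0 < ‖g - 1‖ := norm_pos_iff.2 (sub_ne_zero.2 hg1)
  rw [tendsto_zero_iff_norm_tendsto_zero]
  have h1 : ∀ N : ℕ, ‖(1 / (N : ℂ)) * ∑ k ∈ range N, g ^ k‖ ≤ (2 / ‖g - 1‖) * (1 / (N : ℝ)) := by
    intro N
    rw [norm_mul, norm_div, norm_one, Complex.norm_natCast, geom_sum_eq hg1, norm_div, mul_comm]
    apply mul_le_mul_of_nonneg_right _ (by positivity)
    apply div_le_div_of_nonneg_right _ hpos.le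
    calc ‖g ^ N - 1‖ ≤ ‖g ^ N‖ + ‖(1 : ℂ)‖ := norm_sub_le _ _
      _ = 2 := by rw [norm_pow, hg, one_pow, norm_one]; norm_num
  refine squeeze_zero (fun N => norm_nonneg _) h1 ?_
  have h2 := (tendsto_one_div_atTop_nhds_zero_nat (𝕜 := ℝ)).const_mul (2 / ‖g - 1‖)
  rwa [mul_zero] at h2

/-- Wiener's lemma -/
lemma wiener (τ : Measure UnitAddCircle) [IsFiniteMeasure τ] (h0 : ∀ x, τ {x} = 0) :
    Tendsto (fun N : ℕ => (1 / (N : ℝ)) * ∑ n ∈ range N, ‖∫ x, uc x ^ n ∂τ‖ ^ 2) atTop (𝓝 0) := by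
  obtain ⟨g, hg⟩ : ∃ g : UnitAddCircle × UnitAddCircle → ℂ,
      g = fun z => uc z.1 * starRingEnd ℂ (uc z.2) := ⟨_, rfl⟩
  have hgc : Continuous g := by
    rw [hg]
    exact (uc_cont.comp continuous_fst).mul
      (Complex.continuous_conj.comp (uc_cont.comp continuous_snd))
  have hgn : ∀ z, ‖g z‖ = 1 := by
    intro z
    rw [hg]
    simp only [norm_mul, RCLike.norm_conj, uc_norm, one_mul]
  have hsq : ∀ n : ℕ, ((‖∫ x, uc x ^ n ∂τ‖ ^ 2 : ℝ) : ℂ) = ∫ z, g z ^ n ∂(τ.prod τ) := by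
    intro n
    rw [← Complex.normSq_eq_norm_sq, ← Complex.mul_conj, ← integral_conj, ← integral_prod_mul]
    apply integral_congr_ae
    refine Filter.Eventually.of_forall fun z => ?_
    simp only [hg, mul_pow, map_pow]
  have hint : ∀ n : ℕ, Integrable (fun z => g z ^ n) (τ.prod τ) := by
    intro n
    refine Integrable.mono' (g := fun _ => (1 : ℝ)) (integrable_const _)
      (hgc.pow n).aestronglyMeasurable ?_
    exact Filter.Eventually.of_forall fun z => by rw [norm_pow, hgn, one_pow]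
  have hrew : ∀ N : ℕ, (((1 / (N : ℝ)) * ∑ n ∈ range N, ‖∫ x, uc x ^ n ∂τ‖ ^ 2 : ℝ) : ℂ)
      = ∫ z, (1 / (N : ℂ)) * ∑ n ∈ range N, g z ^ n ∂(τ.prod τ) := by
    intro N
    rw [integral_const_mul, integral_finsetSum _ fun n _ => hint n]
    simp_rw [← hsq]
    push_cast
    rfl
  have hlim : Tendsto (fun N : ℕ => ∫ z, (1 / (N : ℂ)) * ∑ n ∈ range N, g z ^ n ∂(τ.prod τ))
      atTop (𝓝 (∫ _ : UnitAddCircle × UnitAddCircle, (0 : ℂ) ∂(τ.prod τ))) := by
    apply tendsto_integral_of_dominated_convergence (fun _ => (1 : ℝ))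
    · intro N
      exact (continuous_const.mul
        (continuous_finsetSum _ fun n _ => hgc.pow n)).aestronglyMeasurable
    · exact integrable_const _
    · intro N
      refine Filter.Eventually.of_forall fun z => ?_
      rw [norm_mul, norm_div, norm_one, Complex.norm_natCast]
      have h1 : ‖∑ n ∈ range N, g z ^ n‖ ≤ N := by
        refine (norm_sum_le _ _).trans ?_
        calc ∑ n ∈ range N, ‖g z ^ n‖ = ∑ n ∈ range N, (1 : ℝ) := by
              refine Finset.sum_congr rfl fun n _ => ?_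
              rw [norm_pow, hgn, one_pow]
          _ = N := by simp
          _ ≤ N := le_rfl
      by_cases hN : (N : ℝ) = 0
      · rw [hN]; simp
      · calc (1 / (N : ℝ)) * ‖∑ n ∈ range N, g z ^ n‖ ≤ (1 / (N : ℝ)) * N := by gcongr
          _ = 1 := by field_simp
    · have ha3 : ∀ᵐ z ∂(τ.prod τ), z.1 ≠ z.2 := by
        rw [ae_iff]
        have hmeas : MeasurableSet {z : UnitAddCircle × UnitAddCircle | ¬ z.1 ≠ z.2} := by
          simp only [ne_eq, not_not]
          exact measurableSet_eq_fun measurable_fst measurable_snd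
        rw [Measure.prod_apply hmeas]
        have : ∀ x, τ (Prod.mk x ⁻¹' {z : UnitAddCircle × UnitAddCircle | ¬ z.1 ≠ z.2}) = 0 := by
          intro x
          have : (Prod.mk x ⁻¹' {z : UnitAddCircle × UnitAddCircle | ¬ z.1 ≠ z.2}) = {x} := by
            ext y; simp [eq_comm]
          rw [this, h0]
        simp_rw [this]; simp
      filter_upwards [ha3] with z hz
      apply geo_lim (hgn z)
      intro h
      apply hz
      apply uc_inj
      rw [hg] at h
      simp only at h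
      calc uc z.1 = uc z.1 * (starRingEnd ℂ (uc z.2) * uc z.2) := by rw [uc_mul, mul_one]
        _ = (uc z.1 * starRingEnd ℂ (uc z.2)) * uc z.2 := by ring
        _ = uc z.2 := by rw [h, one_mul]
  rw [integral_zero] at hlim
  have h3 : Tendsto (fun N : ℕ => (((1 / (N : ℝ)) * ∑ n ∈ range N, ‖∫ x, uc x ^ n ∂τ‖ ^ 2 : ℝ) : ℂ))
      atTop (𝓝 ((0 : ℝ) : ℂ)) := by
    rw [Complex.ofReal_zero]
    exact hlim.congr fun N => (hrew N).symm
  have h4 := (Complex.continuous_re.tendsto ((0 : ℝ) : ℂ)).comp h3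
  rw [Complex.ofReal_re] at h4
  exact h4.congr fun N => Complex.ofReal_re _

end Atm

open Atm in
theorem atm : S_ATM := by
  intro σ _ hF
  obtain ⟨S, hS⟩ : ∃ S : Set UnitAddCircle, S = {x | 0 < σ {x}} := ⟨_, rfl⟩
  have hSc : S.Countable := by
    rw [hS]
    exact Measure.countable_meas_pos_of_disjoint_iUnion (fun i => measurableSet_singleton i)
      (fun i j h => by simpa [Function.onFun] using h)
  refine ⟨S, hSc, ?_⟩
  by_contra hne
  obtain ⟨τ, hτ⟩ : ∃ τ : Measure UnitAddCircle, τ = σ.restrict Sᶜ := ⟨_, rfl⟩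
  have hτf : IsFiniteMeasure τ := by rw [hτ]; infer_instance
  have hτ0 : ∀ x, τ {x} = 0 := by
    intro x
    rw [hτ, Measure.restrict_apply (measurableSet_singleton x)]
    by_cases hx : x ∈ S
    · have : {x} ∩ Sᶜ = (∅ : Set UnitAddCircle) := by
        ext y
        simp only [Set.mem_inter_iff, Set.mem_singleton_iff, Set.mem_compl_iff,
          Set.mem_empty_iff_false, iff_false, not_and, not_not]
        rintro rfl
        exact hx
      rw [this, measure_empty]
    · rw [hS] at hx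
      have h1 : σ {x} = 0 := by
        by_contra h
        exact hx (pos_iff_ne_zero.2 h)
      exact measure_mono_null Set.inter_subset_left h1
  obtain ⟨t, ht⟩ : ∃ t : ℝ, t = τ.real Set.univ := ⟨_, rfl⟩
  have htpos : 0 < t := by
    rw [ht, Measure.real, ENNReal.toReal_pos_iff]
    refine ⟨?_, measure_lt_top _ _⟩
    rw [hτ, Measure.restrict_apply_univ]
    exact pos_iff_ne_zero.2 hne
  have hcont : ∀ n m : ℕ, Continuous fun η : UnitAddCircle =>
      ‖(fourier (n : ℤ) η : ℂ) - fourier (m : ℤ) η‖ ^ 2 := fun n m =>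
    (((fourier (n : ℤ)).continuous.sub (fourier (m : ℤ)).continuous).norm).pow 2
  have hbound : ∀ n m : ℕ, ∀ η : UnitAddCircle,
      ‖(fourier (n : ℤ) η : ℂ) - fourier (m : ℤ) η‖ ^ 2 ≤ 4 := by
    intro n m η
    rw [fourier_nat, fourier_nat]
    have h1 : ‖uc η ^ n - uc η ^ m‖ ≤ 2 := by
      calc ‖uc η ^ n - uc η ^ m‖ ≤ ‖uc η ^ n‖ + ‖uc η ^ m‖ := norm_sub_le _ _
        _ = 2 := by rw [norm_pow, norm_pow, uc_norm, one_pow, one_pow]; norm_num
    nlinarith [norm_nonneg (uc η ^ n - uc η ^ m)]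
  have hintσ : ∀ n m : ℕ, Integrable (fun η : UnitAddCircle =>
      ‖(fourier (n : ℤ) η : ℂ) - fourier (m : ℤ) η‖ ^ 2) σ := by
    intro n m
    refine Integrable.mono' (g := fun _ => (4 : ℝ)) (integrable_const _)
      (hcont n m).aestronglyMeasurable ?_
    exact Filter.Eventually.of_forall fun z => by
      rw [Real.norm_of_nonneg (by positivity)]
      exact hbound n m z
  obtain ⟨F, hF⟩ := hF t htpos
  obtain ⟨M, hM⟩ : ∃ M : ℕ, ∀ m ∈ F, m ≤ M := ⟨F.sup id, fun m hm => Finset.le_sup (f := id) hm⟩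
  obtain ⟨c, hc⟩ : ∃ c : ℕ → ℂ, ∀ k, c k = ∫ x, uc x ^ k ∂τ := ⟨fun k => ∫ x, uc x ^ k ∂τ, fun _ => rfl⟩
  have hupow : ∀ k : ℕ, Integrable (fun x => uc x ^ k) τ := by
    intro k
    refine Integrable.mono' (g := fun _ => (1 : ℝ)) (integrable_const _)
      (uc_cont.pow k).aestronglyMeasurable ?_
    exact Filter.Eventually.of_forall fun z => by rw [norm_pow, uc_norm, one_pow]
  have hbig : ∀ n : ℕ, M ≤ n → ∃ m ∈ F, t ^ 2 / 4 ≤ ‖c (n - m)‖ ^ 2 := by
    intro n hn
    obtain ⟨m, hm, hlt⟩ := hF n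
    refine ⟨m, hm, ?_⟩
    have hmn : m ≤ n := (hM m hm).trans hn
    have h1 : ∫ η, ‖(fourier (n : ℤ) η : ℂ) - fourier (m : ℤ) η‖ ^ 2 ∂τ < t := by
      refine lt_of_le_of_lt ?_ hlt
      rw [hτ]
      exact setIntegral_le_integral (hintσ n m) (Filter.Eventually.of_forall fun z => by positivity)
    have h2 : ∀ η : UnitAddCircle, ‖(fourier (n : ℤ) η : ℂ) - fourier (m : ℤ) η‖ ^ 2 =
        2 - 2 * (uc η ^ (n - m)).re := by
      intro η
      rw [fourier_nat, fourier_nat]
      have e1 : uc η ^ n - uc η ^ m = uc η ^ m * (uc η ^ (n - m) - 1) := by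
        rw [mul_sub, ← pow_add, Nat.add_sub_cancel' hmn, mul_one]
      rw [e1, norm_mul, norm_pow, uc_norm, one_pow, one_mul, ← Complex.normSq_eq_norm_sq,
        Complex.normSq_sub, Complex.normSq_eq_norm_sq, norm_pow, uc_norm]
      simp
      ring
    have hre : Integrable (fun a => (uc a ^ (n - m)).re) τ := (hupow (n - m)).re
    have h3 : ∫ η, ‖(fourier (n : ℤ) η : ℂ) - fourier (m : ℤ) η‖ ^ 2 ∂τ = 2 * t - 2 * (c (n - m)).re := by
      rw [integral_congr_ae (Filter.Eventually.of_forall h2), integral_sub (integrable_const _)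
        (hre.const_mul 2), integral_const, integral_const_mul, hc]
      have e1 : ∫ a, (uc a ^ (n - m)).re ∂τ = (∫ x, uc x ^ (n - m) ∂τ).re :=
        integral_re (hupow (n - m))
      rw [e1, ← ht, smul_eq_mul]
      ring
    rw [h3] at h1
    have h4 : t / 2 ≤ ‖c (n - m)‖ := by
      have := Complex.re_le_norm (c (n - m))
      linarith
    nlinarith
  have hw := wiener τ hτ0
  simp_rw [← hc] at hw
  -- the counting
  have hcount : ∀ N : ℕ, 1 ≤ N → M ≤ N → t ^ 2 / 4 ≤
      2 * F.card * ((1 / ((2 * N : ℕ) : ℝ)) * ∑ k ∈ range (2 * N), ‖c k‖ ^ 2) := by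
    intro N hN hMN
    have hN0 : (0 : ℝ) < N := by exact_mod_cast hN
    have e1 : (N : ℝ) * (t ^ 2 / 4) ≤ ∑ n ∈ range N, ∑ m ∈ F, ‖c (M + n - m)‖ ^ 2 := by
      calc (N : ℝ) * (t ^ 2 / 4) = ∑ n ∈ range N, (t ^ 2 / 4) := by
            rw [sum_const, card_range, nsmul_eq_mul]
        _ ≤ _ := by
            apply sum_le_sum
            intro n _
            obtain ⟨m, hm, h5⟩ := hbig (M + n) (Nat.le_add_right _ _)
            exact h5.trans (single_le_sum (f := fun m => ‖c (M + n - m)‖ ^ 2)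
              (fun _ _ => by positivity) hm)
    have e2 : ∑ n ∈ range N, ∑ m ∈ F, ‖c (M + n - m)‖ ^ 2 ≤
        F.card * ∑ k ∈ range (2 * N), ‖c k‖ ^ 2 := by
      rw [sum_comm, ← nsmul_eq_mul, ← sum_const]
      apply sum_le_sum
      intro m hm
      have hmM := hM m hm
      have hinj : Set.InjOn (fun n => M + n - m) (range N : Set ℕ) := by
        intro a _ b _ hab
        simp only at hab
        omega
      rw [← sum_image (f := fun k => ‖c k‖ ^ 2) hinj]
      apply sum_le_sum_of_subset_of_nonneg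
      · intro k hk
        rw [mem_image] at hk
        obtain ⟨n, hn, rfl⟩ := hk
        rw [mem_range] at hn ⊢
        omega
      · intro k _ _
        positivity
    have e3 : (N : ℝ) * (t ^ 2 / 4) ≤ F.card * ∑ k ∈ range (2 * N), ‖c k‖ ^ 2 := e1.trans e2
    have e4 : 2 * (F.card : ℝ) * ((1 / ((2 * N : ℕ) : ℝ)) * ∑ k ∈ range (2 * N), ‖c k‖ ^ 2) =
        (F.card * ∑ k ∈ range (2 * N), ‖c k‖ ^ 2) / N := by
      push_cast
      field_simp
    rw [e4, le_div_iff₀ hN0]
    linarith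
  have h2N : Tendsto (fun N : ℕ => 2 * N) atTop atTop :=
    Filter.tendsto_atTop_mono (fun N => (by omega : N ≤ 2 * N)) tendsto_id
  have hlim := (hw.comp h2N).const_mul (2 * (F.card : ℝ))
  rw [mul_zero] at hlim
  have hle : t ^ 2 / 4 ≤ 0 := by
    apply ge_of_tendsto hlim
    filter_upwards [eventually_ge_atTop (max 1 M)] with N hN
    exact hcount N ((le_max_left _ _).trans hN) ((le_max_right _ _).trans hN)
  have : 0 < t ^ 2 / 4 := by positivity
  linarith

end Pool.Agent.L0h38.TM
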